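import Pool.Agent.H76.BD.PI2

set_option autoImplicit false

/-! Part PI. -/

open scoped ENNReal
open Finset MeasureTheory Pool.Agent.H3.BI

namespace Pool.Agent.H76.BD

lemma mono_C {C C' h δ X : ℝ} (hC : 1 ≤ C) (hCC : C ≤ C') (hδ : 0 < δ) (hX : 0 < X) :
    ENNReal.ofReal (Real.exp (-(h ^ 4 / (C * δ ^ 2 * X)))) ≤
      ENNReal.ofReal (Real.exp (-(h ^ 4 / (C' * δ ^ 2 * X)))) := by
  apply ENNReal.ofReal_le_ofReal
  apply Real.exp_le_exp.2
  apply neg_le_neg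
  apply div_le_div_of_nonneg_left (by positivity) (by positivity)
  apply mul_le_mul_of_nonneg_right _ hX.le
  apply mul_le_mul_of_nonneg_right hCC (by positivity)

theorem t_PI : S_PI := by
  intro hB hLOC hP hIN hI2 hQ1 hQ2 hCNT d ν hd hν
  obtain ⟨C₁, hC₁, hL⟩ := hLOC ν hν
  have hom : 0 < om d := (hCNT d hd).1
  obtain ⟨c₀, C2, hc0, hc1, hC2, hI2'⟩ := hI2 d hd
  obtain ⟨Ca, hCa, ha⟩ := reg1 hd hν hB hC₁ hL hP hIN hQ1 hom hc0 hc1
  obtain ⟨Cb, hCb, hb⟩ := reg2 hd hν hB hC₁ hL hP hQ2 hom hC2 hI2'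
  refine ⟨max Ca Cb, hCa.trans (le_max_left _ _), ?_⟩
  intro n δ h z hz hh hhδ hh1 hh2 hz1
  have hρ0 : 0 ≤ rad d (n + 1) := rad_nonneg d _ hom
  have hδ0 : 0 < δ := by linarith
  have hY1 : 1 ≤ rad d (n + 1) + δ + 1 := by linarith
  have hL1 : 1 ≤ 1 + Real.log (rad d (n + 1) + δ + 1) := by
    have := Real.log_nonneg hY1
    linarith
  have hYt : 1 ≤ (rad d (n + 1) + δ + 1) ^ ta d := Real.one_le_rpow hY1 (ta_nonneg d)
  have hX0 : 0 < (rad d (n + 1) + δ + 1) ^ ta d * (1 + Real.log (rad d (n + 1) + δ + 1)) := by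
    apply mul_pos <;> linarith
  have e : max Ca Cb * δ ^ 2 * (rad d (n + 1) + δ + 1) ^ ta d *
        (1 + Real.log (rad d (n + 1) + δ + 1)) = max Ca Cb * δ ^ 2 *
        ((rad d (n + 1) + δ + 1) ^ ta d * (1 + Real.log (rad d (n + 1) + δ + 1))) := by ring
  rw [e]
  rcases le_total (c₀ * (rad d (n + 1) - h / 2)) (nrm z) with h9 | h9
  · have h1 : Ca * (1 + Real.log (rad d (n + 1) + δ + 1)) ≤ h :=
      (mul_le_mul_of_nonneg_right (le_max_left Ca Cb) (by linarith)).trans hh1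
    have h2 : Ca * h ≤ rad d (n + 1) :=
      (mul_le_mul_of_nonneg_right (le_max_left Ca Cb) hh.le).trans hh2
    exact (ha n δ h z hz hh hhδ h1 h2 hz1 h9).trans (mono_C hCa (le_max_left _ _) hδ0 hX0)
  · have h1 : Cb * (1 + Real.log (rad d (n + 1) + δ + 1)) ≤ h :=
      (mul_le_mul_of_nonneg_right (le_max_right Ca Cb) (by linarith)).trans hh1
    have h2 : Cb * h ≤ rad d (n + 1) :=
      (mul_le_mul_of_nonneg_right (le_max_right Ca Cb) hh.le).trans hh2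
    exact (hb n δ h z hz hh hhδ h1 h2 hz1 h9).trans (mono_C hCb (le_max_right _ _) hδ0 hX0)

end Pool.Agent.H76.BD
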