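import Pool.Agent.H3.BI.Stm2

set_option autoImplicit false

/-! Part PI, preparations: averages, and the exponential bound from LOC for a subharmonic function. -/

open scoped ENNReal
open Finset MeasureTheory Pool.Agent.H3.BI

namespace Pool.Agent.H76.BD

lemma PP_mono {d : ℕ} {f g : Site d → ℝ} (h : ∀ x, f x ≤ g x) (x : Site d) : PP f x ≤ PP g x := by
  unfold PP
  apply div_le_div_of_nonneg_right _ (by positivity)
  exact Finset.sum_le_sum fun e _ => h _

lemma PP_mono_nbr {d : ℕ} {f g : Site d → ℝ} (x : Site d) (h : ∀ e : Dir d, f (x + uvec e) ≤ g (x + uvec e)) :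
    PP f x ≤ PP g x := by
  unfold PP
  apply div_le_div_of_nonneg_right _ (by positivity)
  exact Finset.sum_le_sum fun e _ => h _

lemma PP_nonneg {d : ℕ} {f : Site d → ℝ} (h : ∀ x, 0 ≤ f x) (x : Site d) : 0 ≤ PP f x := by
  unfold PP
  have : 0 ≤ ∑ e : Dir d, f (x + uvec e) := Finset.sum_nonneg fun e _ => h _
  positivity

lemma PP_lin {d : ℕ} (f g : Site d → ℝ) (a b : ℝ) (x : Site d) :
    PP (fun y => a * f y + b * g y) x = a * PP f x + b * PP g x := by
  unfold PP
  rw [Finset.sum_add_distrib, ← Finset.mul_sum, ← Finset.mul_sum]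
  ring

lemma PP_smul {d : ℕ} (f : Site d → ℝ) (a : ℝ) (x : Site d) :
    PP (fun y => a * f y) x = a * PP f x := by
  unfold PP
  rw [← Finset.mul_sum]
  ring

lemma card_dir (d : ℕ) : (Finset.univ : Finset (Dir d)).card = 2 * d := by
  simp [Dir, Finset.card_univ, mul_comm]

lemma PP_le_const {d : ℕ} (hd : 1 ≤ d) {f : Site d → ℝ} (x : Site d) (c : ℝ)
    (h : ∀ e : Dir d, f (x + uvec e) ≤ c) : PP f x ≤ c := by
  unfold PP
  have hd' : (0 : ℝ) < 2 * d := by
    have : (0 : ℝ) < d := by exact_mod_cast hd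
    linarith
  rw [div_le_iff₀ hd']
  calc ∑ e : Dir d, f (x + uvec e) ≤ ∑ e : Dir d, c := Finset.sum_le_sum fun e _ => h e
    _ = c * (2 * d) := by
        rw [Finset.sum_const, card_dir, nsmul_eq_mul]
        push_cast
        ring

/-- linearity of `Eg` -/
lemma Eg_mul {d : ℕ} {ν : PMF ℕ} (hB : S_BAS) (hd : 3 ≤ d) (D : ℕ → Set (Site d)) (n : ℕ) (c : ℝ≥0∞)
    (f : Finset (Site d) → ℝ≥0∞) : Eg ν D n (fun A => c * f A) = c * Eg ν D n f := by
  have h := (hB d ν hd).2.2.2.2.2.2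
  rw [h D (fun A => c * f A) n, h D f n, ← ENNReal.tsum_mul_left]
  refine tsum_congr fun B => ?_
  ring

lemma Eg_mono {d : ℕ} {ν : PMF ℕ} (hB : S_BAS) (hd : 3 ≤ d) (D : ℕ → Set (Site d)) (n : ℕ)
    {f g : Finset (Site d) → ℝ≥0∞} (hfg : ∀ A, f A ≤ g A) : Eg ν D n f ≤ Eg ν D n g := by
  have h := (hB d ν hd).2.2.2.2.2.2
  rw [h D f n, h D g n]
  exact ENNReal.tsum_le_tsum fun B => mul_le_mul_left (hfg B) _

/-- The exponential bound. -/
lemma core {ν : PMF ℕ} (hν : ConditionH ν) (hB : S_BAS) {C₁ : ℝ} (hC₁ : 1 ≤ C₁)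
    (hL : ∀ d : ℕ, 3 ≤ d →
    ∀ (R : ℕ → ℝ) (z : Site d) (a : Site d → ℝ) (b : ℕ → Site d → ℝ) (β : ℕ → ℝ) (n : ℕ),
    (∀ s, 0 ≤ R s) → z ≠ 0 →
    (∀ s, 1 ≤ s → s ≤ n → HL C₁ (Bl d (R s)) z a (b s) ∧ a 0 - β s ≤ b s 0) →
    Eg ν (fun s => Bl d (R s)) n (fun A => ind (fun A : Finset (Site d) => z ∉ A) A *
        ENNReal.ofReal (Real.exp (-∑ y ∈ A, a y))) ≤
      ENNReal.ofReal (Real.exp (-((n + 1) * a 0) + ∑ s ∈ Icc 1 n, β s)))
    {d : ℕ} (hd : 3 ≤ d) (R : ℕ → ℝ) (hR : ∀ s, 0 ≤ R s) (z : Site d) (hz : z ≠ 0)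
    (u : Site d → ℝ) (w : ℕ → Site d → ℝ) (lam T : ℝ) (n : ℕ) (hlam : 0 ≤ lam)
    (hu0 : ∀ x, 0 ≤ u x) (hu1 : ∀ x, C₁ * (lam * u x) ≤ 1) (hsub : ∀ x, x ≠ z → u x ≤ PP u x)
    (hw : ∀ s, 1 ≤ s → s ≤ n → GP (R s) (PP fun y => u y ^ 2) (w s))
    (hT : ∀ A : Finset (Site d), z ∉ A → ∑ y ∈ A, u y ≤ T) :
    Eg ν (fun s => Bl d (R s)) n (ind fun A : Finset (Site d) => z ∉ A) ≤
      ENNReal.ofReal (Real.exp (lam * T - (n + 1) * (lam * u 0) +
        C₁ * lam ^ 2 * ∑ s ∈ Icc 1 n, w s 0)) := by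
  set a : Site d → ℝ := fun x => lam * u x with ha
  set b : ℕ → Site d → ℝ := fun s x => max 0 (lam * u x - C₁ * lam ^ 2 * w s x) with hb
  have hC0 : 0 < C₁ := by linarith
  have hmain := hL d hd R z a b (fun s => C₁ * lam ^ 2 * w s 0) n hR hz (by
    intro s hs1 hs2
    have hg := hw s hs1 hs2
    have hba : ∀ x, b s x ≤ lam * u x := by
      intro x
      simp only [hb]
      apply max_le
      · exact mul_nonneg hlam (hu0 x)
      · have : 0 ≤ C₁ * lam ^ 2 * w s x := mul_nonneg (by positivity) (hg.nn x)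
        linarith
    have hb0 : ∀ x, 0 ≤ b s x := fun x => le_max_left _ _
    have hbC : ∀ x, C₁ * b s x ≤ 1 := fun x =>
      (mul_le_mul_of_nonneg_left (hba x) hC0.le).trans (hu1 x)
    refine ⟨⟨hb0, ?_, hba, ?_⟩, ?_⟩
    · intro x
      have h1 := hbC x
      have h2 := hb0 x
      nlinarith
    · intro x hx hxz
      have hxR : nrm x ≤ R s := hx
      rcases le_or_gt (lam * u x - C₁ * lam ^ 2 * w s x) 0 with h | h
      · have h1 : b s x = 0 := max_eq_left h
        rw [h1, zero_add, ← PP_smul]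
        apply PP_mono
        intro y
        have h2 := hbC y
        have h3 := hb0 y
        nlinarith
      · have h1 : b s x = lam * u x - C₁ * lam ^ 2 * w s x := max_eq_right h.le
        have h2 : PP (fun y => lam * u y + (-(C₁ * lam ^ 2)) * w s y) x ≤ PP (b s) x := by
          apply PP_mono
          intro y
          simp only [hb]
          have := le_max_right 0 (lam * u y - C₁ * lam ^ 2 * w s y)
          linarith
        rw [PP_lin] at h2
        have h3 := hg.eq x hxR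
        have h4 : PP (fun y => b s y ^ 2) x ≤ lam ^ 2 * PP (fun y => u y ^ 2) x := by
          rw [← PP_smul]
          apply PP_mono
          intro y
          have := pow_le_pow_left₀ (hb0 y) (hba y) 2
          rw [mul_pow] at this
          exact this
        have h5 := hsub x hxz
        have h6 : C₁ * PP (fun y => b s y ^ 2) x ≤ C₁ * (lam ^ 2 * PP (fun y => u y ^ 2) x) :=
          mul_le_mul_of_nonneg_left h4 hC0.le
        have h7 : lam * u x ≤ lam * PP u x := mul_le_mul_of_nonneg_left h5 hlam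
        have h8 : PP (w s) x = w s x - PP (fun y => u y ^ 2) x := by linarith
        rw [h8] at h2
        rw [h1]
        nlinarith
    · simp only [hb, ha]
      exact le_max_right _ _)
  have hle : ∀ A : Finset (Site d), ind (fun A : Finset (Site d) => z ∉ A) A ≤
      ENNReal.ofReal (Real.exp (lam * T)) *
        (ind (fun A : Finset (Site d) => z ∉ A) A * ENNReal.ofReal (Real.exp (-∑ y ∈ A, a y))) := by
    intro A
    by_cases hA : z ∉ A
    · simp only [ind, if_pos hA, one_mul]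
      rw [← ENNReal.ofReal_mul (Real.exp_pos _).le, ← Real.exp_add, ← ENNReal.ofReal_one]
      apply ENNReal.ofReal_le_ofReal
      rw [← Real.exp_zero]
      apply Real.exp_le_exp.2
      rw [ha, ← Finset.mul_sum]
      have := mul_le_mul_of_nonneg_left (hT A hA) hlam
      linarith
    · simp only [ind, if_neg hA]
      exact zero_le
  calc Eg ν (fun s => Bl d (R s)) n (ind fun A : Finset (Site d) => z ∉ A)
      ≤ Eg ν (fun s => Bl d (R s)) n (fun A => ENNReal.ofReal (Real.exp (lam * T)) *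
        (ind (fun A : Finset (Site d) => z ∉ A) A * ENNReal.ofReal (Real.exp (-∑ y ∈ A, a y)))) :=
        Eg_mono hB hd _ n hle
    _ = ENNReal.ofReal (Real.exp (lam * T)) * Eg ν (fun s => Bl d (R s)) n (fun A =>
        ind (fun A : Finset (Site d) => z ∉ A) A * ENNReal.ofReal (Real.exp (-∑ y ∈ A, a y))) :=
        Eg_mul hB hd _ n _ _
    _ ≤ ENNReal.ofReal (Real.exp (lam * T)) *
        ENNReal.ofReal (Real.exp (-((n + 1) * a 0) + ∑ s ∈ Icc 1 n, C₁ * lam ^ 2 * w s 0)) :=
        mul_le_mul_right hmain _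
    _ = _ := by
        rw [← ENNReal.ofReal_mul (Real.exp_pos _).le, ← Real.exp_add, ← Finset.mul_sum]
        congr 2
        simp only [ha]
        ring

end Pool.Agent.H76.BD
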