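import Pool.Agent.H76.BD.Core

set_option autoImplicit false

/-! Part PI/OUT, preparations: neighbours. -/

open scoped ENNReal
open Finset MeasureTheory Pool.Agent.H3.BI

namespace Pool.Agent.H76.BD

/-- sign of a direction -/
noncomputable def sg {d : ℕ} (e : Dir d) : ℝ := if e.2 then 1 else -1

lemma sg_sq {d : ℕ} (e : Dir d) : sg e ^ 2 = 1 := by
  unfold sg
  split_ifs <;> norm_num

lemma uvec_cast {d : ℕ} (e : Dir d) (i : Fin d) : ((uvec e i : ℤ) : ℝ) = if i = e.1 then sg e else 0 := by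
  unfold uvec sg
  rw [Pi.single_apply]
  split_ifs <;> simp

lemma nsq_add_uvec {d : ℕ} (y : Site d) (e : Dir d) :
    nsq (y + uvec e) = nsq y + 2 * (sg e * y e.1) + 1 := by
  unfold nsq
  have h1 : ∀ i, (((y + uvec e) i : ℤ) : ℝ) ^ 2 = (y i : ℝ) ^ 2 +
      (if i = e.1 then 2 * (sg e * y e.1) + 1 else 0) := by
    intro i
    have h2 : (((y + uvec e) i : ℤ) : ℝ) = (y i : ℝ) + (if i = e.1 then sg e else 0) := by
      rw [Pi.add_apply]
      push_cast
      rw [uvec_cast]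
    rw [h2]
    split_ifs with h
    · subst h
      have := sg_sq e
      linear_combination this
    · ring
  rw [Finset.sum_congr rfl fun i _ => h1 i, Finset.sum_add_distrib, Finset.sum_ite_eq']
  simp
  ring

lemma abs_coord_le {d : ℕ} (y : Site d) (i : Fin d) : |(y i : ℝ)| ≤ nrm y := by
  rw [← Real.sqrt_sq_eq_abs]
  exact Real.sqrt_le_sqrt (Finset.single_le_sum (f := fun i => (y i : ℝ) ^ 2)
    (fun _ _ => sq_nonneg _) (Finset.mem_univ i))

lemma abs_sg_mul_le {d : ℕ} (y : Site d) (e : Dir d) : |sg e * y e.1| ≤ nrm y := by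
  rw [abs_mul]
  have : |sg e| = 1 := by
    unfold sg
    split_ifs <;> norm_num
  rw [this, one_mul]
  exact abs_coord_le y e.1

lemma nrm_add_uvec_le {d : ℕ} (y : Site d) (e : Dir d) : nrm (y + uvec e) ≤ nrm y + 1 := by
  have h0 := nrm_nonneg y
  have h1 := abs_le.1 (abs_sg_mul_le y e)
  have h2 := nrm_sq y
  have h3 := nrm_sq (y + uvec e)
  rw [nsq_add_uvec] at h3
  apply le_of_sq_le_sq _ (by linarith)
  rw [h3]
  nlinarith

lemma nrm_le_add_uvec {d : ℕ} (y : Site d) (e : Dir d) : nrm y ≤ nrm (y + uvec e) + 1 := by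
  by_contra hcon
  push Not at hcon
  have h0 := nrm_nonneg y
  have h0' := nrm_nonneg (y + uvec e)
  have h1 := abs_le.1 (abs_sg_mul_le y e)
  have h2 := nrm_sq y
  have h3 := nrm_sq (y + uvec e)
  rw [nsq_add_uvec] at h3
  nlinarith

lemma nsq_nbr {d : ℕ} (y : Site d) (e : Dir d) : nsq y + 1 ≤ 3 * (nsq (y + uvec e) + 1) := by
  have h1 := nrm_le_add_uvec y e
  have h2 := nrm_sq y
  have h3 := nrm_sq (y + uvec e)
  have h0 := nrm_nonneg y
  have h0' := nrm_nonneg (y + uvec e)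
  rw [← h2, ← h3]
  nlinarith [sq_nonneg (nrm (y + uvec e) - 1)]

lemma nsq_nbr' {d : ℕ} (y : Site d) (e : Dir d) : nsq (y + uvec e) + 1 ≤ 3 * (nsq y + 1) := by
  have h1 := nrm_add_uvec_le y e
  have h2 := nrm_sq y
  have h3 := nrm_sq (y + uvec e)
  have h0 := nrm_nonneg y
  have h0' := nrm_nonneg (y + uvec e)
  rw [← h2, ← h3]
  nlinarith [sq_nonneg (nrm y - 1)]

lemma rpow_nbr {d : ℕ} (y : Site d) (e : Dir d) {γ : ℝ} (hγ : 0 ≤ γ) :
    (nsq (y + uvec e) + 1) ^ (-γ) ≤ 3 ^ γ * (nsq y + 1) ^ (-γ) := by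
  have h0 := nsq_nonneg y
  have h0' := nsq_nonneg (y + uvec e)
  have h1 := nsq_nbr y e
  rw [Real.rpow_neg (by linarith), Real.rpow_neg (by linarith), ← div_eq_mul_inv,
    inv_eq_one_div, div_le_div_iff₀ (Real.rpow_pos_of_pos (by linarith) _)
      (Real.rpow_pos_of_pos (by linarith) _), one_mul, ← Real.mul_rpow (by norm_num) (by linarith)]
  exact Real.rpow_le_rpow (by linarith) h1 hγ

lemma bt_nonneg {d : ℕ} (hd : 3 ≤ d) : 0 ≤ bt d := by
  have : (3 : ℝ) ≤ d := by exact_mod_cast hd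
  unfold bt
  linarith

lemma sub_add_uvec {d : ℕ} (x z : Site d) (e : Dir d) : x + uvec e - z = (x - z) + uvec e := by
  abel

/-- first bound of the average of squares -/
lemma q_b1 {d : ℕ} (hd : 3 ≤ d) {C : ℝ} (hC : 0 ≤ C) {u : Site d → ℝ} {z : Site d} (x : Site d)
    (hu0 : ∀ e : Dir d, 0 ≤ u (x + uvec e))
    (hu : ∀ e : Dir d, u (x + uvec e) ≤ C * (nsq (x + uvec e - z) + 1) ^ (-bt d)) :
    PP (fun y => u y ^ 2) x ≤ C ^ 2 * 3 ^ (2 * bt d) * (nsq (x - z) + 1) ^ (-(2 * bt d)) := by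
  apply PP_le_const (by omega)
  intro e
  have h1 := pow_le_pow_left₀ (hu0 e) (hu e) 2
  refine h1.trans ?_
  rw [mul_pow, mul_assoc]
  apply mul_le_mul_of_nonneg_left _ (by positivity)
  have h0 := nsq_nonneg (x + uvec e - z)
  rw [← Real.rpow_natCast, ← Real.rpow_mul (by linarith)]
  have e1 : -bt d * ((2 : ℕ) : ℝ) = -(2 * bt d) := by push_cast; ring
  rw [e1, sub_add_uvec]
  exact rpow_nbr (x - z) e (by have := bt_nonneg hd; linarith)

/-- second bound of the average of squares -/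
lemma q_b2 {d : ℕ} (hd : 3 ≤ d) {C m : ℝ} (hC : 0 ≤ C) (hm : 1 ≤ m) {u : Site d → ℝ} {z : Site d}
    (x : Site d) (hu0 : ∀ e : Dir d, 0 ≤ u (x + uvec e))
    (hu : ∀ e : Dir d, u (x + uvec e) ≤ C * m * (m + nrm (x + uvec e - z)) *
      (nsq (x + uvec e - z) + 1) ^ (-((d : ℝ) / 2))) :
    PP (fun y => u y ^ 2) x ≤ C ^ 2 * 4 * 3 ^ (d : ℝ) * m ^ 2 * (m + nrm (x - z)) ^ 2 *
      (nsq (x - z) + 1) ^ (-(d : ℝ)) := by
  apply PP_le_const (by omega)
  intro e
  have h1 := pow_le_pow_left₀ (hu0 e) (hu e) 2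
  refine h1.trans ?_
  have hn := nrm_nonneg (x - z)
  have hn' := nrm_nonneg (x + uvec e - z)
  have h0 := nsq_nonneg (x + uvec e - z)
  have h2 : (m + nrm (x + uvec e - z)) ^ 2 ≤ 4 * (m + nrm (x - z)) ^ 2 := by
    have h3 : nrm (x + uvec e - z) ≤ nrm (x - z) + 1 := by
      rw [sub_add_uvec]; exact nrm_add_uvec_le _ _
    have h4 : m + nrm (x + uvec e - z) ≤ 2 * (m + nrm (x - z)) := by linarith
    calc (m + nrm (x + uvec e - z)) ^ 2 ≤ (2 * (m + nrm (x - z))) ^ 2 :=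
          pow_le_pow_left₀ (by linarith) h4 2
      _ = _ := by ring
  have h5 : ((nsq (x + uvec e - z) + 1) ^ (-((d : ℝ) / 2))) ^ 2 ≤ 3 ^ (d : ℝ) * (nsq (x - z) + 1) ^ (-(d : ℝ)) := by
    rw [← Real.rpow_natCast, ← Real.rpow_mul (by linarith)]
    have e1 : -((d : ℝ) / 2) * ((2 : ℕ) : ℝ) = -(d : ℝ) := by push_cast; ring
    rw [e1, sub_add_uvec]
    exact rpow_nbr (x - z) e (by positivity)
  calc (C * m * (m + nrm (x + uvec e - z)) * (nsq (x + uvec e - z) + 1) ^ (-((d : ℝ) / 2))) ^ 2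
      = C ^ 2 * m ^ 2 * ((m + nrm (x + uvec e - z)) ^ 2 * ((nsq (x + uvec e - z) + 1) ^ (-((d : ℝ) / 2))) ^ 2) := by
        ring
    _ ≤ C ^ 2 * m ^ 2 * ((4 * (m + nrm (x - z)) ^ 2) * (3 ^ (d : ℝ) * (nsq (x - z) + 1) ^ (-(d : ℝ)))) := by
        apply mul_le_mul_of_nonneg_left _ (by positivity)
        apply mul_le_mul h2 h5 (by positivity) (by positivity)
    _ = _ := by ring

end Pool.Agent.H76.BD
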