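import Pool.Agent.H76.BD.Geom

set_option autoImplicit false

/-! Part PI, first regime. -/

open scoped ENNReal
open Finset MeasureTheory Pool.Agent.H3.BI

namespace Pool.Agent.H76.BD

lemma rad_nonneg (d t : ℕ) (hom : 0 < om d) : 0 ≤ rad d t := by
  unfold rad
  positivity

lemma rad_pow {d : ℕ} (hd : 3 ≤ d) (t : ℕ) (hom : 0 < om d) : om d * rad d t ^ d = t := by
  unfold rad
  have hd' : (d : ℝ) ≠ 0 := by
    have : 0 < d := by omega
    positivity
  rw [← Real.rpow_natCast, ← Real.rpow_mul (by positivity), one_div, inv_mul_cancel₀ hd', Real.rpow_one]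
  field_simp

lemma rad_mono {d : ℕ} (hom : 0 < om d) {s t : ℕ} (h : s ≤ t) : rad d s ≤ rad d t := by
  unfold rad
  apply Real.rpow_le_rpow (by positivity) _ (by positivity)
  apply div_le_div_of_nonneg_right _ hom.le
  exact_mod_cast h

lemma ta_nonneg (d : ℕ) : 0 ≤ ta d := by
  unfold ta
  split_ifs <;> norm_num

lemma ta_le_one (d : ℕ) : ta d ≤ 1 := by
  unfold ta
  split_ifs <;> norm_num

lemma sum_le_of_support {d : ℕ} {u : Site d → ℝ} (hu : ∀ x, 0 ≤ u x) {A B : Finset (Site d)}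
    (h : ∀ x ∈ A, u x ≠ 0 → x ∈ B) : ∑ x ∈ A, u x ≤ ∑ x ∈ B, u x := by
  classical
  rw [← Finset.sum_filter_ne_zero]
  apply Finset.sum_le_sum_of_subset_of_nonneg
  · intro x hx
    rw [Finset.mem_filter] at hx
    exact h x hx.1 hx.2
  · intro x _ _
    exact hu x

lemma rpow_neg_le_one {s γ : ℝ} (hs : 0 ≤ s) (hγ : 0 ≤ γ) : (s + 1) ^ (-γ) ≤ 1 :=
  Real.rpow_le_one_of_one_le_of_nonpos (by linarith) (by linarith)

/-- the final real inequality of the first regime -/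
lemma arith1 {om₀ CI C₁ CQ ρ N h δ m M X L u0 T W lam c' C n1 : ℝ} {d : ℕ} (hd : 1 ≤ d)
    (hom : 0 < om₀) (hCI : 1 ≤ CI) (hC₁ : 1 ≤ C₁) (hCQ : 1 ≤ CQ)
    (hN : N = ρ - h / 2) (hN0 : 0 < N) (hh : 0 < h) (hhδ : h ≤ δ) (hm : h / 2 ≤ m)
    (hM : M = m + 2 * δ) (hX : 1 ≤ X) (hvol : om₀ * ρ ^ d = n1)
    (hu0 : m / (CI * N ^ (d - 1)) ≤ u0)
    (hT : T ≤ om₀ * N ^ d * u0 + CI * m * L) (hW : W ≤ CQ * M ^ 2 * X)
    (hc' : 0 < c') (hc'1 : c' ≤ om₀ / (4 * CI) / (2 * C₁ * CQ))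
    (hlam : lam = c' * h * m / (M ^ 2 * X))
    (hC : 4 * CI ^ 2 / om₀ ≤ C) (hC2 : 50 / (om₀ / (4 * CI) * c') ≤ C) (hCL : C * L ≤ h)
    (hL0 : 0 ≤ L) :
    lam * T - n1 * (lam * u0) + C₁ * lam ^ 2 * W ≤ -(h ^ 4 / (C * δ ^ 2 * X)) := by
  have hm0 : 0 < m := by linarith
  have hδ0 : 0 < δ := by linarith
  have hM0 : 0 < M := by rw [hM]; linarith
  have hX0 : 0 < X := by linarith
  have hCI0 : 0 < CI := by linarith
  set c₁ := om₀ / (4 * CI) with hc₁
  have hc₁0 : 0 < c₁ := by positivity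
  have hC0 : 0 < C := lt_of_lt_of_le (by positivity) hC
  have hlam0 : 0 < lam := by rw [hlam]; positivity
  have hρN : N ≤ ρ := by linarith
  have hNp : 0 < N ^ (d - 1) := by positivity
  have hu00 : 0 < u0 := lt_of_lt_of_le (by positivity) hu0
  -- volume
  have h1 : h / 2 * N ^ (d - 1) ≤ ρ ^ d - N ^ d := by
    have e1 : ρ ^ d = ρ * ρ ^ (d - 1) := by
      rw [← pow_succ', Nat.sub_add_cancel hd]
    have e2 : N ^ d = N * N ^ (d - 1) := by
      rw [← pow_succ', Nat.sub_add_cancel hd]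
    have e3 : N ^ (d - 1) ≤ ρ ^ (d - 1) := pow_le_pow_left₀ hN0.le hρN _
    rw [e1, e2]
    have e4 : ρ * N ^ (d - 1) ≤ ρ * ρ ^ (d - 1) := mul_le_mul_of_nonneg_left e3 (by linarith)
    have e5 : ρ - N = h / 2 := by linarith
    nlinarith
  have h2 : om₀ * (h / 2) * (m / CI) ≤ om₀ * (ρ ^ d - N ^ d) * u0 := by
    have e1 : h / 2 * N ^ (d - 1) * (m / (CI * N ^ (d - 1))) ≤ (ρ ^ d - N ^ d) * u0 :=
      mul_le_mul h1 hu0 (by positivity) (le_trans (by positivity) h1)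
    have e2 : h / 2 * N ^ (d - 1) * (m / (CI * N ^ (d - 1))) = h / 2 * (m / CI) := by
      field_simp
    rw [e2] at e1
    calc om₀ * (h / 2) * (m / CI) = om₀ * (h / 2 * (m / CI)) := by ring
      _ ≤ om₀ * ((ρ ^ d - N ^ d) * u0) := mul_le_mul_of_nonneg_left e1 hom.le
      _ = _ := by ring
  have h3 : CI * m * L ≤ c₁ * h * m := by
    have e1 : 4 * CI ^ 2 / om₀ * L ≤ h := (mul_le_mul_of_nonneg_right hC hL0).trans hCL
    have e2 : CI * L ≤ c₁ * h := by
      have e3 : c₁ * (4 * CI ^ 2 / om₀ * L) = CI * L := by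
        rw [hc₁]; field_simp
      rw [← e3]
      exact mul_le_mul_of_nonneg_left e1 hc₁0.le
    calc CI * m * L = (CI * L) * m := by ring
      _ ≤ (c₁ * h) * m := mul_le_mul_of_nonneg_right e2 hm0.le
      _ = _ := by ring
  have h4 : T - n1 * u0 ≤ -(c₁ * h * m) := by
    have e1 : om₀ * (h / 2) * (m / CI) = 2 * (c₁ * h * m) := by
      rw [hc₁]; field_simp; norm_num
    rw [← hvol]
    nlinarith
  have h5 : lam * (M ^ 2 * X) = c' * h * m := by
    rw [hlam]; field_simp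
  have h6 : C₁ * lam ^ 2 * W ≤ lam * (c₁ / 2 * h * m) := by
    calc C₁ * lam ^ 2 * W ≤ C₁ * lam ^ 2 * (CQ * M ^ 2 * X) :=
          mul_le_mul_of_nonneg_left hW (by positivity)
      _ = lam * (C₁ * CQ * (lam * (M ^ 2 * X))) := by ring
      _ = lam * (C₁ * CQ * (c' * h * m)) := by rw [h5]
      _ ≤ lam * (c₁ / 2 * h * m) := by
          apply mul_le_mul_of_nonneg_left _ hlam0.le
          have e1 : C₁ * CQ * c' ≤ c₁ / 2 := by
            rw [le_div_iff₀ (by positivity)] at hc'1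
            linarith
          have e2 : 0 < h * m := by positivity
          nlinarith
  have h7 : lam * T - n1 * (lam * u0) + C₁ * lam ^ 2 * W ≤ -(lam * (c₁ / 2 * h * m)) := by
    have e1 : lam * (T - n1 * u0) ≤ lam * (-(c₁ * h * m)) := mul_le_mul_of_nonneg_left h4 hlam0.le
    nlinarith
  refine h7.trans (neg_le_neg ?_)
  -- h^4/(C δ² X) ≤ lam (c₁/2) h m
  have h8 : h * M ≤ 5 * δ * m := by
    rw [hM]
    nlinarith
  have h9 : (h * M) ^ 2 ≤ (5 * δ * m) ^ 2 := pow_le_pow_left₀ (by positivity) h8 2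
  have h10 : 50 ≤ C * (c₁ * c') := by
    rw [div_le_iff₀ (by positivity)] at hC2
    exact hC2
  rw [div_le_iff₀ (by positivity)]
  have e1 : lam * (c₁ / 2 * h * m) * (C * δ ^ 2 * X) =
      (C * (c₁ * c')) / 50 * ((5 * δ * m) ^ 2) * h ^ 2 / M ^ 2 := by
    rw [hlam]
    field_simp
    ring
  rw [e1, le_div_iff₀ (by positivity)]
  calc h ^ 4 * M ^ 2 = 1 * (h * M) ^ 2 * h ^ 2 := by ring
    _ ≤ (C * (c₁ * c')) / 50 * ((5 * δ * m) ^ 2) * h ^ 2 := by
        apply mul_le_mul_of_nonneg_right _ (by positivity)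
        apply mul_le_mul _ h9 (by positivity) (by positivity)
        linarith

/-- **PI**, first regime -/
lemma reg1 {d : ℕ} (hd : 3 ≤ d) {ν : PMF ℕ} (hν : ConditionH ν) (hB : S_BAS) {C₁ : ℝ} (hC₁ : 1 ≤ C₁)
    (hL : ∀ d : ℕ, 3 ≤ d →
    ∀ (R : ℕ → ℝ) (z : Site d) (a : Site d → ℝ) (b : ℕ → Site d → ℝ) (β : ℕ → ℝ) (n : ℕ),
    (∀ s, 0 ≤ R s) → z ≠ 0 →
    (∀ s, 1 ≤ s → s ≤ n → HL C₁ (Bl d (R s)) z a (b s) ∧ a 0 - β s ≤ b s 0) →
    Eg ν (fun s => Bl d (R s)) n (fun A => ind (fun A : Finset (Site d) => z ∉ A) A *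
        ENNReal.ofReal (Real.exp (-∑ y ∈ A, a y))) ≤
      ENNReal.ofReal (Real.exp (-((n + 1) * a 0) + ∑ s ∈ Icc 1 n, β s)))
    (hP : S_POT) (hIN : C_INN) (hQ : C_QV1) (hom : 0 < om d) {c₀ : ℝ} (hc0 : 0 < c₀) (hc1 : c₀ < 1) :
    ∃ C : ℝ, 1 ≤ C ∧ ∀ (n : ℕ) (δ h : ℝ) (z : Site d), z ≠ 0 → 0 < h → h ≤ δ →
    C * (1 + Real.log (rad d (n + 1) + δ + 1)) ≤ h → C * h ≤ rad d (n + 1) →
    nrm z ≤ rad d (n + 1) - h → c₀ * (rad d (n + 1) - h / 2) ≤ nrm z →
    Eg ν (Dm d δ) n (ind fun A : Finset (Site d) => z ∉ A) ≤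
      ENNReal.ofReal (Real.exp (-(h ^ 4 / (C * δ ^ 2 * ((rad d (n + 1) + δ + 1) ^ ta d *
        (1 + Real.log (rad d (n + 1) + δ + 1))))))) := by
  obtain ⟨CI, hCI, hI⟩ := hIN d c₀ hd hc0 hc1
  have hCI0 : 0 < CI := by linarith
  set K : ℝ := CI ^ 2 * 3 ^ (2 * bt d) + CI ^ 2 * 4 * 3 ^ (d : ℝ) + 1 with hK
  have hK1 : 1 ≤ K := by
    have : 0 < CI ^ 2 * 3 ^ (2 * bt d) + CI ^ 2 * 4 * 3 ^ (d : ℝ) := by positivity
    linarith
  obtain ⟨CQ, hCQ, hQQ⟩ := hQ d (c₀ / 2) K hd (by positivity) (by linarith) hK1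
  set c' : ℝ := min (om d / (4 * CI) / (2 * C₁ * CQ)) (1 / (CI * C₁)) with hc'
  have hc'0 : 0 < c' := by
    apply lt_min <;> positivity
  set C : ℝ := max (max (2 * CI) 2) (max (4 * CI ^ 2 / om d) (50 / (om d / (4 * CI) * c'))) with hC
  have hCa : 2 * CI ≤ C := (le_max_left _ _).trans (le_max_left _ _)
  have hCb : 2 ≤ C := (le_max_right _ _).trans (le_max_left _ _)
  have hCc : 4 * CI ^ 2 / om d ≤ C := (le_max_left _ _).trans (le_max_right _ _)
  have hCd : 50 / (om d / (4 * CI) * c') ≤ C := (le_max_right _ _).trans (le_max_right _ _)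
  refine ⟨C, by linarith, ?_⟩
  intro n δ h z hz hh0 hhδ hh1 hh2 hz1 hz2
  set ρ := rad d (n + 1) with hρ
  have hρ0 : 0 ≤ ρ := rad_nonneg d _ hom
  -- sizes: first a lower bound for the logarithm requires positivity of the argument
  have hzn := nrm_nonneg z
  have hhρ : h ≤ ρ := by linarith
  have hδ0 : 0 ≤ δ := by linarith
  set Y := ρ + δ + 1 with hY
  have hY1 : 1 ≤ Y := by linarith
  have hL0 : 0 ≤ Real.log Y := Real.log_nonneg hY1
  set L := 1 + Real.log Y with hLdef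
  have hL1 : 1 ≤ L := by linarith
  have hhC : C ≤ h := by nlinarith
  have hN2 : ρ / 2 ≤ ρ - h / 2 := by linarith
  set N := ρ - h / 2 with hN
  have hρh : 2 * h ≤ ρ := by nlinarith
  have hN0 : 0 < N := by linarith
  have hNCI : CI ≤ N := by nlinarith
  have hNY : N ≤ Y := by linarith
  obtain ⟨u, hu⟩ := hI N z hNCI ⟨hz2, by linarith⟩
  set m := N - nrm z with hm
  have hm2 : h / 2 ≤ m := by linarith
  have hm1 : 1 ≤ m := by linarith
  set M := m + 2 * δ with hM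
  set X := Y ^ ta d * L with hX
  have hX1 : 1 ≤ X := by
    have : 1 ≤ Y ^ ta d := Real.one_le_rpow hY1 (ta_nonneg d)
    nlinarith
  have hX0 : 0 < X := by linarith
  have hM0 : 0 < M := by linarith
  set R : ℕ → ℝ := fun s => rad d (s + 1) + δ with hR
  have hRn : ∀ s, 0 ≤ R s := fun s => by
    have := rad_nonneg d (s + 1) hom
    simp only [hR]
    linarith
  have hu2 : ∀ x, 0 ≤ PP (fun y => u y ^ 2) x := PP_nonneg fun x => sq_nonneg _
  choose w hw using fun s => hP d (R s) (PP fun y => u y ^ 2) hd (hRn s) hu2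
  have hWb := hQQ n δ M m z (PP fun y => u y ^ 2) w hm1 (by linarith) hδ0 (by rw [← hρ]; nlinarith)
    (by nlinarith) (by rw [← hρ]; linarith) (by rw [← hρ]; linarith) hu2 (by
      intro x _
      have hs : 0 ≤ nsq (x - z) := nsq_nonneg _
      constructor
      · refine (q_b1 hd hCI0.le x (fun e => hu.nn _) (fun e => hu.b1 _)).trans ?_
        apply mul_le_mul_of_nonneg_right _ (by positivity)
        rw [hK]
        have : 0 < CI ^ 2 * 4 * 3 ^ (d : ℝ) := by positivity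
        linarith
      · refine (q_b2 hd hCI0.le hm1 x (fun e => hu.nn _) (fun e => hu.b2 _)).trans ?_
        apply mul_le_mul_of_nonneg_right _ (by positivity)
        apply mul_le_mul_of_nonneg_right _ (by positivity)
        apply mul_le_mul_of_nonneg_right _ (by positivity)
        rw [hK]
        have : 0 < CI ^ 2 * 3 ^ (2 * bt d) := by positivity
        linarith) (fun s _ _ => hw s)
  rw [← hρ, ← hY, ← hLdef] at hWb
  set lam := c' * h * m / (M ^ 2 * X) with hlam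
  have hlam0 : 0 ≤ lam := by positivity
  have hlam1 : lam ≤ c' := by
    rw [hlam, div_le_iff₀ (by positivity)]
    have e1 : h ≤ M := by linarith
    have e2 : m ≤ M := by linarith
    have e3 : h * m ≤ M ^ 2 := by nlinarith
    have e4 : M ^ 2 ≤ M ^ 2 * X := by nlinarith [sq_nonneg M]
    nlinarith
  have hlam2 : C₁ * (lam * CI) ≤ 1 := by
    have e1 : lam ≤ 1 / (CI * C₁) := hlam1.trans (min_le_right _ _)
    rw [le_div_iff₀ (by positivity)] at e1
    linarith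
  have hcore := core hν hB hC₁ hL hd R hRn z hz u w lam (∑ x ∈ (bF d (N + 1)).erase z, u x) n hlam0
    hu.nn (by
      intro x
      have e1 : u x ≤ CI := by
        refine (hu.b1 x).trans ?_
        have := rpow_neg_le_one (nsq_nonneg (x - z)) (bt_nonneg hd)
        nlinarith
      have e2 : C₁ * (lam * u x) ≤ C₁ * (lam * CI) := by
        apply mul_le_mul_of_nonneg_left _ (by linarith)
        exact mul_le_mul_of_nonneg_left e1 hlam0
      linarith) hu.sub (fun s _ _ => hw s) (by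
      intro A hA
      apply sum_le_of_support hu.nn
      intro x hx hux
      rw [Finset.mem_erase, mem_bF]
      refine ⟨fun h9 => hA (h9 ▸ hx), ?_⟩
      by_contra h9
      exact hux (hu.out x (not_le.1 h9).le))
  have hDm : Dm d δ = fun s => Bl d (R s) := rfl
  rw [hDm]
  refine hcore.trans (ENNReal.ofReal_le_ofReal (Real.exp_le_exp.2 ?_))
  have hvol : om d * ρ ^ d = (n : ℝ) + 1 := by
    rw [hρ, rad_pow hd _ hom]
    push_cast
    rfl
  have hlogN : 1 + Real.log N ≤ L := by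
    have := Real.log_le_log hN0 hNY
    linarith
  refine arith1 (om₀ := om d) (CI := CI) (CQ := CQ) (ρ := ρ) (N := N) (m := m) (M := M) (L := L) (c' := c')
    (d := d) (by omega) hom hCI hC₁ hCQ hN hN0 hh0 hhδ hm2 hM hX1 hvol hu.zero ?_ ?_ hc'0
    (min_le_left _ _) hlam hCc hCd hh1 (by linarith)
  · refine hu.tot.trans ?_
    have e1 : CI * (N - nrm z) * (1 + Real.log N) ≤ CI * m * L := by
      apply mul_le_mul_of_nonneg_left hlogN
      rw [← hm]
      positivity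
    linarith
  · refine hWb.trans (le_of_eq ?_)
    rw [hX]
    ring

end Pool.Agent.H76.BD
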