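import Pool.Agent.H76.BD.PI1

set_option autoImplicit false

/-! Part PI, second regime, and conclusion. -/

open scoped ENNReal
open Finset MeasureTheory Pool.Agent.H3.BI

namespace Pool.Agent.H76.BD

/-- the final real inequality of the second regime -/
lemma arith2 {C₁ CV C2 X T W u0 lam c' n1 κ C h δ ρ : ℝ} (hC₁ : 1 ≤ C₁) (hCV : 1 ≤ CV) (hC2 : 1 ≤ C2)
    (hX : 1 ≤ X) (hc'0 : 0 < c') (hc'1 : c' ≤ 1 / (16 * C₁ * CV * C2)) (hlam : lam = c' / X)
    (hn1 : 0 < n1) (hu0 : 0 ≤ u0) (hT : T ≤ n1 * u0 / 2) (hW : W ≤ n1 * (4 * CV * X * C2 * u0))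
    (hκ : 0 < κ) (hnu : 4 * κ / c' * ρ ^ 2 ≤ n1 * u0) (hC : 1 / κ ≤ C) (hh : 0 < h) (hhδ : h ≤ δ)
    (hhρ : h ≤ ρ) :
    lam * T - n1 * (lam * u0) + C₁ * lam ^ 2 * W ≤ -(h ^ 4 / (C * δ ^ 2 * X)) := by
  have hX0 : 0 < X := by linarith
  have hlam0 : 0 < lam := by rw [hlam]; positivity
  have hlX : lam * X = c' := by rw [hlam]; field_simp
  have hnu0 : 0 ≤ n1 * u0 := mul_nonneg hn1.le hu0
  have hC0 : 0 < C := lt_of_lt_of_le (by positivity) hC
  have hδ0 : 0 < δ := by linarith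
  have h1 : C₁ * lam ^ 2 * W ≤ lam * (n1 * u0 / 4) := by
    calc C₁ * lam ^ 2 * W ≤ C₁ * lam ^ 2 * (n1 * (4 * CV * X * C2 * u0)) :=
          mul_le_mul_of_nonneg_left hW (by positivity)
      _ = lam * (n1 * u0) * (4 * C₁ * CV * C2 * (lam * X)) := by ring
      _ = lam * (n1 * u0) * (4 * C₁ * CV * C2 * c') := by rw [hlX]
      _ ≤ lam * (n1 * u0) * (1 / 4) := by
          apply mul_le_mul_of_nonneg_left _ (by positivity)
          rw [le_div_iff₀ (by positivity)] at hc'1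
          linarith
      _ = _ := by ring
  have h2 : lam * T ≤ lam * (n1 * u0 / 2) := mul_le_mul_of_nonneg_left hT hlam0.le
  have h3 : lam * T - n1 * (lam * u0) + C₁ * lam ^ 2 * W ≤ -(lam * (n1 * u0) / 4) := by linarith
  refine h3.trans (neg_le_neg ?_)
  rw [div_le_iff₀ (by positivity)]
  have h4 : lam * (4 * κ / c' * ρ ^ 2) ≤ lam * (n1 * u0) := mul_le_mul_of_nonneg_left hnu hlam0.le
  have h5 : lam * (4 * κ / c' * ρ ^ 2) = 4 * κ * ρ ^ 2 / X := by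
    rw [hlam]; field_simp
  rw [h5] at h4
  have h6 : κ * ρ ^ 2 / X ≤ lam * (n1 * u0) / 4 := by
    have : 4 * κ * ρ ^ 2 / X = 4 * (κ * ρ ^ 2 / X) := by ring
    linarith
  have h7 : κ * ρ ^ 2 / X * (C * δ ^ 2 * X) ≤ lam * (n1 * u0) / 4 * (C * δ ^ 2 * X) :=
    mul_le_mul_of_nonneg_right h6 (by positivity)
  refine le_trans ?_ h7
  have h8 : κ * ρ ^ 2 / X * (C * δ ^ 2 * X) = (C * κ) * (ρ ^ 2 * δ ^ 2) := by
    field_simp
  rw [h8]
  have h9 : 1 ≤ C * κ := by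
    rw [div_le_iff₀ hκ] at hC
    exact hC
  have h10 : h ^ 4 ≤ ρ ^ 2 * δ ^ 2 := by
    calc h ^ 4 = h ^ 2 * h ^ 2 := by ring
      _ ≤ ρ ^ 2 * δ ^ 2 := mul_le_mul (pow_le_pow_left₀ hh.le hhρ 2) (pow_le_pow_left₀ hh.le hhδ 2)
          (by positivity) (by positivity)
  have h11 : 0 ≤ ρ ^ 2 * δ ^ 2 := by positivity
  calc h ^ 4 ≤ 1 * (ρ ^ 2 * δ ^ 2) := by linarith
    _ ≤ (C * κ) * (ρ ^ 2 * δ ^ 2) := mul_le_mul_of_nonneg_right h9 h11

lemma rho_pow {d : ℕ} (hd : 3 ≤ d) {ρ s : ℝ} (hρ : 1 ≤ ρ) (hs0 : 0 ≤ s) (hs : s ≤ ρ ^ 2) :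
    (2 : ℝ) ^ (-bt d) * ρ ^ 2 ≤ ρ ^ d * (s + 1) ^ (-bt d) := by
  have hb := bt_nonneg hd
  have h1 : (2 * ρ ^ 2) ^ (-bt d) ≤ (s + 1) ^ (-bt d) :=
    Real.rpow_le_rpow_of_nonpos (by linarith) (by nlinarith) (by linarith)
  have h2 : (2 * ρ ^ 2) ^ (-bt d) = 2 ^ (-bt d) * (ρ ^ (d - 2))⁻¹ := by
    rw [Real.mul_rpow (by norm_num) (by positivity)]
    congr 1
    rw [← Real.rpow_natCast, ← Real.rpow_mul (by linarith), ← Real.rpow_natCast, ← Real.rpow_neg (by linarith)]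
    congr 1
    rw [Nat.cast_sub (by omega)]
    unfold bt
    push_cast
    ring
  have h3 : ρ ^ d = ρ ^ 2 * ρ ^ (d - 2) := by
    rw [← pow_add]
    congr 1
    omega
  have hp : 0 < ρ ^ (d - 2) := by positivity
  calc (2 : ℝ) ^ (-bt d) * ρ ^ 2 = ρ ^ d * ((2 * ρ ^ 2) ^ (-bt d)) := by
        rw [h2, h3]
        field_simp
    _ ≤ _ := mul_le_mul_of_nonneg_left h1 (by positivity)

/-- **PI**, second regime -/
lemma reg2 {d : ℕ} (hd : 3 ≤ d) {ν : PMF ℕ} (hν : ConditionH ν) (hB : S_BAS) {C₁ : ℝ} (hC₁ : 1 ≤ C₁)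
    (hL : ∀ d : ℕ, 3 ≤ d →
    ∀ (R : ℕ → ℝ) (z : Site d) (a : Site d → ℝ) (b : ℕ → Site d → ℝ) (β : ℕ → ℝ) (n : ℕ),
    (∀ s, 0 ≤ R s) → z ≠ 0 →
    (∀ s, 1 ≤ s → s ≤ n → HL C₁ (Bl d (R s)) z a (b s) ∧ a 0 - β s ≤ b s 0) →
    Eg ν (fun s => Bl d (R s)) n (fun A => ind (fun A : Finset (Site d) => z ∉ A) A *
        ENNReal.ofReal (Real.exp (-∑ y ∈ A, a y))) ≤
      ENNReal.ofReal (Real.exp (-((n + 1) * a 0) + ∑ s ∈ Icc 1 n, β s)))
    (hP : S_POT) (hV : C_QV2) (hom : 0 < om d) {c₀ C2 : ℝ} (hC2 : 1 ≤ C2)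
    (hI2 : ∀ (N : ℝ) (z : Site d), C2 ≤ N →
    z ≠ 0 → nrm z ≤ c₀ * N → ∃ u : Site d → ℝ, (∀ x, 0 ≤ u x) ∧
      (∀ x, u x ≤ C2 * (nsq (x - z) + 1) ^ (-bt d)) ∧ (∀ x, N ≤ nrm x → u x = 0) ∧
      (∀ x, x ≠ z → u x ≤ PP u x) ∧ (nsq z + 1) ^ (-bt d) ≤ C2 * u 0 ∧
      ∑ x ∈ (bF d N).erase z, u x ≤ om d * N ^ d * u 0 / 2) :
    ∃ C : ℝ, 1 ≤ C ∧ ∀ (n : ℕ) (δ h : ℝ) (z : Site d), z ≠ 0 → 0 < h → h ≤ δ →
    C * (1 + Real.log (rad d (n + 1) + δ + 1)) ≤ h → C * h ≤ rad d (n + 1) →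
    nrm z ≤ rad d (n + 1) - h → nrm z ≤ c₀ * (rad d (n + 1) - h / 2) →
    Eg ν (Dm d δ) n (ind fun A : Finset (Site d) => z ∉ A) ≤
      ENNReal.ofReal (Real.exp (-(h ^ 4 / (C * δ ^ 2 * ((rad d (n + 1) + δ + 1) ^ ta d *
        (1 + Real.log (rad d (n + 1) + δ + 1))))))) := by
  have hC20 : 0 < C2 := by linarith
  set K : ℝ := C2 ^ 2 * 3 ^ (2 * bt d) + 1 with hK
  have hK1 : 1 ≤ K := by
    have : 0 < C2 ^ 2 * 3 ^ (2 * bt d) := by positivity
    linarith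
  obtain ⟨CV, hCV, hVV⟩ := hV d K hd hK1
  set c' : ℝ := min (1 / (16 * C₁ * CV * C2)) (1 / (C2 * C₁)) with hc'
  have hc'0 : 0 < c' := by
    apply lt_min <;> positivity
  set κ : ℝ := c' / 4 * (om d * 2 ^ (-bt d) / C2) with hκ
  have hκ0 : 0 < κ := by positivity
  set C : ℝ := max (max (2 * C2) 2) (1 / κ) with hC
  have hCa : 2 * C2 ≤ C := (le_max_left _ _).trans (le_max_left _ _)
  have hCb : 2 ≤ C := (le_max_right _ _).trans (le_max_left _ _)
  have hCc : 1 / κ ≤ C := le_max_right _ _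
  refine ⟨C, by linarith, ?_⟩
  intro n δ h z hz hh0 hhδ hh1 hh2 hz1 hz2
  set ρ := rad d (n + 1) with hρ
  have hρ0 : 0 ≤ ρ := rad_nonneg d _ hom
  have hzn := nrm_nonneg z
  have hhρ : h ≤ ρ := by linarith
  have hδ0 : 0 ≤ δ := by linarith
  set Y := ρ + δ + 1 with hY
  have hY1 : 1 ≤ Y := by linarith
  have hL0 : 0 ≤ Real.log Y := Real.log_nonneg hY1
  set L := 1 + Real.log Y with hLdef
  have hL1 : 1 ≤ L := by linarith
  have hhC : C ≤ h := by nlinarith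
  set N := ρ - h / 2 with hN
  have hρh : 2 * h ≤ ρ := by nlinarith
  have hN0 : 0 < N := by linarith
  have hNCI : C2 ≤ N := by nlinarith
  obtain ⟨u, hunn, hub, huout, husub, huz, hut⟩ := hI2 N z hNCI hz hz2
  set X := Y ^ ta d * L with hX
  have hYt : 1 ≤ Y ^ ta d := Real.one_le_rpow hY1 (ta_nonneg d)
  have hX1 : 1 ≤ X := by nlinarith
  have hX0 : 0 < X := by linarith
  set R : ℕ → ℝ := fun s => rad d (s + 1) + δ with hR
  have hRn : ∀ s, 1 ≤ R s := fun s => by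
    have := rad_nonneg d (s + 1) hom
    simp only [hR]
    linarith
  have hRn0 : ∀ s, 0 ≤ R s := fun s => by linarith [hRn s]
  have hu2 : ∀ x, 0 ≤ PP (fun y => u y ^ 2) x := PP_nonneg fun x => sq_nonneg _
  choose w hw using fun s => hP d (R s) (PP fun y => u y ^ 2) hd (hRn0 s) hu2
  have hwb : ∀ s ∈ Icc 1 n, w s 0 ≤ 4 * CV * X * C2 * u 0 := by
    intro s hs
    have hs' := Finset.mem_Icc.1 hs
    have h1 := hVV (R s) z (PP fun y => u y ^ 2) (w s) (hRn s) hz hu2 (by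
      intro x _
      refine (q_b1 hd hC20.le x (fun e => hunn _) (fun e => hub _)).trans ?_
      have hs : 0 ≤ nsq (x - z) := nsq_nonneg _
      apply mul_le_mul_of_nonneg_right _ (by positivity)
      rw [hK]
      linarith) (hw s)
    have h2 : R s + nrm z ≤ 2 * Y := by
      have : rad d (s + 1) ≤ ρ := rad_mono hom (by omega)
      simp only [hR]
      linarith
    have h3 : 1 ≤ R s + nrm z := by linarith [hRn s]
    have h4 : (R s + nrm z) ^ ta d ≤ 2 * Y ^ ta d := by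
      calc (R s + nrm z) ^ ta d ≤ (2 * Y) ^ ta d := Real.rpow_le_rpow (by linarith) h2 (ta_nonneg d)
        _ = 2 ^ ta d * Y ^ ta d := Real.mul_rpow (by norm_num) (by linarith)
        _ ≤ 2 ^ (1 : ℝ) * Y ^ ta d := by
            apply mul_le_mul_of_nonneg_right _ (by positivity)
            exact Real.rpow_le_rpow_of_exponent_le (by norm_num) (ta_le_one d)
        _ = _ := by rw [Real.rpow_one]
    have h5 : 1 + Real.log (R s + nrm z) ≤ 2 * L := by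
      have e1 : Real.log (R s + nrm z) ≤ Real.log (2 * Y) := Real.log_le_log (by linarith) h2
      rw [Real.log_mul (by norm_num) (by linarith)] at e1
      have e2 : Real.log 2 ≤ 1 := by
        have := Real.log_two_lt_d9
        linarith
      linarith
    have h6 : 0 ≤ 1 + Real.log (R s + nrm z) := by
      have := Real.log_nonneg h3
      linarith
    have h7 : 0 ≤ (nsq z + 1) ^ (-bt d) := by
      have := nsq_nonneg z
      positivity
    calc w s 0 ≤ CV * (R s + nrm z) ^ ta d * (1 + Real.log (R s + nrm z)) * (nsq z + 1) ^ (-bt d) := h1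
      _ ≤ CV * (2 * Y ^ ta d) * (2 * L) * (C2 * u 0) := by
          apply mul_le_mul _ huz h7 (by positivity)
          apply mul_le_mul _ h5 h6 (by positivity)
          exact mul_le_mul_of_nonneg_left h4 (by linarith)
      _ = _ := by rw [hX]; ring
  have hWb : ∑ s ∈ Icc 1 n, w s 0 ≤ ((n : ℝ) + 1) * (4 * CV * X * C2 * u 0) := by
    refine (Finset.sum_le_sum hwb).trans ?_
    rw [Finset.sum_const, nsmul_eq_mul, Nat.card_Icc, Nat.add_sub_cancel]
    apply mul_le_mul_of_nonneg_right _ (by have := hunn 0; positivity)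
    linarith
  set lam := c' / X with hlam
  have hlam0 : 0 ≤ lam := by positivity
  have hlam1 : lam ≤ c' := div_le_self hc'0.le hX1
  have hlam2 : C₁ * (lam * C2) ≤ 1 := by
    have e1 : lam ≤ 1 / (C2 * C₁) := hlam1.trans (min_le_right _ _)
    rw [le_div_iff₀ (by positivity)] at e1
    linarith
  have hcore := core hν hB hC₁ hL hd R hRn0 z hz u w lam (∑ x ∈ (bF d N).erase z, u x) n hlam0
    hunn (by
      intro x
      have e1 : u x ≤ C2 := by
        refine (hub x).trans ?_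
        have := rpow_neg_le_one (nsq_nonneg (x - z)) (bt_nonneg hd)
        nlinarith
      have e2 : C₁ * (lam * u x) ≤ C₁ * (lam * C2) := by
        apply mul_le_mul_of_nonneg_left _ (by linarith)
        exact mul_le_mul_of_nonneg_left e1 hlam0
      linarith) husub (fun s _ _ => hw s) (by
      intro A hA
      apply sum_le_of_support hunn
      intro x hx hux
      rw [Finset.mem_erase, mem_bF]
      refine ⟨fun h9 => hA (h9 ▸ hx), ?_⟩
      by_contra h9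
      exact hux (huout x (not_le.1 h9).le))
  have hDm : Dm d δ = fun s => Bl d (R s) := rfl
  rw [hDm]
  refine hcore.trans (ENNReal.ofReal_le_ofReal (Real.exp_le_exp.2 ?_))
  have hvol : om d * ρ ^ d = (n : ℝ) + 1 := by
    rw [hρ, rad_pow hd _ hom]
    push_cast
    rfl
  have hu0n := hunn 0
  have hρ1 : 1 ≤ ρ := by nlinarith
  refine arith2 (CV := CV) (C2 := C2) (X := X) (κ := κ) (ρ := ρ) (c' := c') hC₁ hCV hC2 hX1 hc'0
    (min_le_left _ _) hlam (by positivity) hu0n ?_ hWb hκ0 ?_ hCc hh0 hhδ hhρ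
  · refine hut.trans ?_
    rw [← hvol]
    have e1 : N ^ d ≤ ρ ^ d := pow_le_pow_left₀ hN0.le (by linarith) _
    have e2 : om d * N ^ d ≤ om d * ρ ^ d := mul_le_mul_of_nonneg_left e1 hom.le
    have e3 := mul_le_mul_of_nonneg_right e2 hu0n
    linarith
  · have e0 : nsq z ≤ ρ ^ 2 := by
      rw [← nrm_sq]
      exact pow_le_pow_left₀ hzn (by linarith) 2
    have e1 := rho_pow hd hρ1 (nsq_nonneg z) e0
    rw [← hvol]
    have e2 : 4 * κ / c' * ρ ^ 2 = om d / C2 * (2 ^ (-bt d) * ρ ^ 2) := by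
      rw [hκ]; field_simp
    rw [e2]
    calc om d / C2 * (2 ^ (-bt d) * ρ ^ 2) ≤ om d / C2 * (ρ ^ d * (nsq z + 1) ^ (-bt d)) :=
          mul_le_mul_of_nonneg_left e1 (by positivity)
      _ ≤ om d / C2 * (ρ ^ d * (C2 * u 0)) := by
          apply mul_le_mul_of_nonneg_left _ (by positivity)
          exact mul_le_mul_of_nonneg_left huz (by positivity)
      _ = _ := by field_simp

end Pool.Agent.H76.BD
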